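import Pool.Agent.helper54.V3.SpecT

/-! v3:THU. Hurwitz along an ultrafilter: existence of zeros. -/

set_option autoImplicit false

open Complex Metric Set Filter Topology MeasureTheory

noncomputable section

namespace V3

theorem THU : THU_stmt := by
  intro U f F z₀ r hr hf hF hF0 hne ε hε
  have hd : DifferentiableOn ℂ F (ball z₀ r) := hF.differentiableOn hf isOpen_ball
  have han : AnalyticOnNhd ℂ F (ball z₀ r) := hd.analyticOnNhd isOpen_ball
  have hz₀ : z₀ ∈ ball z₀ r := mem_ball_self hr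
  have h1 : ∀ᶠ z in 𝓝[≠] z₀, F z ≠ 0 := by
    rcases (han z₀ hz₀).eventually_eq_zero_or_eventually_ne_zero with h | h
    · exfalso
      obtain ⟨x, hx, hx0⟩ := hne
      exact hx0 (han.eqOn_zero_of_preconnected_of_eventuallyEq_zero
        (convex_ball z₀ r).isPreconnected hz₀ h hx)
    · exact h
  rw [eventually_nhdsWithin_iff, Metric.eventually_nhds_iff] at h1
  obtain ⟨δ₀, hδ₀, h1⟩ := h1
  set δ := min (min δ₀ ε) r / 2 with hδ
  have hm : 0 < min (min δ₀ ε) r := lt_min (lt_min hδ₀ hε) hr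
  have hδpos : 0 < δ := half_pos hm
  have hδ1 : δ < δ₀ := (half_lt_self hm).trans_le ((min_le_left _ _).trans (min_le_left _ _))
  have hδ2 : δ < ε := (half_lt_self hm).trans_le ((min_le_left _ _).trans (min_le_right _ _))
  have hδ3 : δ < r := (half_lt_self hm).trans_le (min_le_right _ _)
  have hcb : closedBall z₀ δ ⊆ ball z₀ r := closedBall_subset_ball hδ3
  have hcbe : closedBall z₀ δ ⊆ ball z₀ ε := closedBall_subset_ball hδ2
  have hsc : IsCompact (sphere z₀ δ) := isCompact_sphere z₀ δ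
  have hsn : (sphere z₀ δ).Nonempty := (NormedSpace.sphere_nonempty).2 hδpos.le
  obtain ⟨x₁, hx₁, hmin⟩ := hsc.exists_isMinOn hsn
    ((hd.continuousOn.mono (sphere_subset_closedBall.trans hcb)).norm)
  have hx₁0 : F x₁ ≠ 0 := by
    apply h1
    · rw [mem_sphere.1 hx₁]; exact hδ1
    · rw [mem_compl_iff, mem_singleton_iff]
      intro h
      rw [h, mem_sphere, dist_self] at hx₁
      exact hδpos.ne hx₁
  set c := ‖F x₁‖ with hc
  have hcpos : 0 < c := norm_pos_iff.2 hx₁0
  have hunif : TendstoUniformlyOn f F U (closedBall z₀ δ) :=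
    (tendstoLocallyUniformlyOn_iff_forall_isCompact isOpen_ball).1 hF _ hcb
      (isCompact_closedBall z₀ δ)
  have hev := Metric.tendstoUniformlyOn_iff.1 hunif (c / 2) (half_pos hcpos)
  filter_upwards [hf, hev] with m hm1 hm2
  by_contra hcon
  push Not at hcon
  have hcl : closure (ball z₀ δ) = closedBall z₀ δ := closure_ball z₀ hδpos.ne'
  have hdc : DiffContOnCl ℂ (f m) (ball z₀ δ) := by
    apply DifferentiableOn.diffContOnCl
    rw [hcl]
    exact hm1.mono hcb
  have hinv : DiffContOnCl ℂ (fun z => (f m z)⁻¹) (ball z₀ δ) := by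
    apply hdc.inv
    intro x hx
    rw [hcl] at hx
    exact hcon x (hcbe hx)
  have hbd : ∀ z ∈ frontier (ball z₀ δ), ‖(f m z)⁻¹‖ ≤ 2 / c := by
    intro z hz
    rw [frontier_ball z₀ hδpos.ne'] at hz
    have h2 := hm2 z (sphere_subset_closedBall hz)
    have h3 : c ≤ ‖F z‖ := hmin hz
    rw [dist_eq_norm] at h2
    have h4 : ‖F z‖ ≤ ‖F z - f m z‖ + ‖f m z‖ := by
      calc ‖F z‖ = ‖(F z - f m z) + f m z‖ := by congr 1; ring
        _ ≤ _ := norm_add_le _ _
    have h5 : c / 2 ≤ ‖f m z‖ := by linarith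
    rw [norm_inv, ← inv_div]
    exact inv_anti₀ (half_pos hcpos) h5
  have h6 := Complex.norm_le_of_forall_mem_frontier_norm_le isBounded_ball hinv hbd
    (z := z₀) (by rw [hcl]; exact mem_closedBall_self hδpos.le)
  have h7 := hm2 z₀ (mem_closedBall_self hδpos.le)
  rw [hF0, dist_eq_norm, zero_sub, norm_neg] at h7
  have h8 : f m z₀ ≠ 0 := hcon z₀ (mem_ball_self hε)
  have h9 : 0 < ‖f m z₀‖ := norm_pos_iff.2 h8
  rw [norm_inv, inv_le_comm₀ h9 (by positivity), inv_div] at h6
  linarith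

end V3
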