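import Pool.Agent.helper36.V3.SpecS

/-! v3:PT3. Pointwise bounds in the chain step (adapted from pp:PT2 by helper75). -/

set_option autoImplicit false

open Complex Metric Set Filter Topology MeasureTheory MPS

noncomputable section

namespace PPS

/-- the family of level functions. -/
def PT3_fam {k : ℕ} [NeZero k] (b g : ZMod k → ℂ) (G : ℕ → ℂ → ℂ) (q : ℕ) : ℂ → ℂ :=
  fun w => tau b g G (q - 1) w - tau b g G q w

theorem PT3_sum {k : ℕ} [NeZero k] (b g : ZMod k → ℂ) (G : ℕ → ℂ → ℂ) (p : ℕ) (w : ℂ) :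
    ∑ q ∈ Finset.Icc 1 p, ‖PT3_fam b g G q w‖ = ∑ q ∈ Finset.Icc 1 p, lev b g G q w := rfl

theorem PT3 (hS3L : S3L_stmt) (hHSM : MPS.HSM_stmt) (hS3A : S3A_stmt) (hLEA : LEA_stmt)
    (hLV : LV_stmt) : PT3_stmt := by
  intro n k _ f b g R ε h r₀ χ G0 PP M T G Q hH p hp1 hpQ w t ht hw
  have hsu := hH.su3
  have hn := hsu.hn
  have hε : 0 ≤ ε := by
    refine le_trans ?_ hsu.hE
    have h1 : 0 < Real.log ‖rho f b‖ := Real.log_pos hsu.rho1
    have h2 : 0 ≤ ∫ z in ball (0 : ℂ) R, ‖er f b g z‖ :=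
      integral_nonneg fun z => norm_nonneg _
    positivity
  have hanti0 : ∀ m q : ℕ, q + m ≤ Q → T (q + m) ≤ T q := by
    intro m
    induction m with
    | zero => intro q _; exact le_refl _
    | succ m ih =>
      intro q hq
      exact le_trans (hH.sys.anti (q + m) (by omega)) (ih q (by omega))
  have hanti : ∀ q, q ≤ p → T p ≤ T q := by
    intro q hq
    have := hanti0 (p - q) q (by omega)
    rwa [Nat.add_sub_cancel' hq] at this
  obtain ⟨-, -, -, hlev, -, -, -⟩ := hS3A n k f b g R ε h r₀ χ G0 PP M T G Q hH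
  have hL := hlev p hpQ
  set Ω : Set ℂ := ball (0 : ℂ) (T p) with hΩ
  have hΩo : IsOpen Ω := isOpen_ball
  obtain ⟨-, -, htau, -, -⟩ := hLEA k f b g G Ω p hsu.cyc hΩo hL
  have hsub : ball w t ⊆ Ω := by
    intro z hz
    rw [hΩ, mem_ball_zero_iff]
    rw [mem_ball_iff_norm] at hz
    calc ‖z‖ = ‖(z - w) + w‖ := by congr 1; ring
      _ ≤ ‖z - w‖ + ‖w‖ := norm_add_le _ _
      _ < t + ‖w‖ := by linarith
      _ ≤ T p := by linarith
  have hwΩ : w ∈ Ω := hsub (mem_ball_self ht)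
  have hd : ∀ q ∈ Finset.Icc 1 p, DifferentiableOn ℂ (PT3_fam b g G q) Ω := by
    intro q hq
    rw [Finset.mem_Icc] at hq
    exact (htau (q - 1) (by omega)).sub (htau q hq.2)
  have h1 := hHSM ℕ (Finset.Icc 1 p) (PT3_fam b g G) w t ht
    (fun i hi => (hd i hi).mono hsub)
  simp only [PT3_sum b g G p] at h1
  have hnn : ∀ q z, 0 ≤ lev b g G q z := fun q z => norm_nonneg _
  have hcont : ∀ q ∈ Finset.Icc 1 p, ContinuousOn (fun z => lev b g G q z) Ω := by
    intro q hq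
    exact (hd q hq).continuousOn.norm
  have h2 : ∫⁻ z in ball w t, ENNReal.ofReal (∑ q ∈ Finset.Icc 1 p, lev b g G q z) =
      ∑ q ∈ Finset.Icc 1 p, ∫⁻ z in ball w t, ENNReal.ofReal (lev b g G q z) := by
    rw [← lintegral_finsetSum']
    · refine lintegral_congr fun z => ?_
      rw [ENNReal.ofReal_sum_of_nonneg fun q _ => hnn q z]
    · intro q hq
      exact ((hcont q hq).mono hsub).aemeasurable measurableSet_ball |>.ennreal_ofReal
  have h3 : ∑ q ∈ Finset.Icc 1 p, ∫⁻ z in ball w t, ENNReal.ofReal (lev b g G q z) ≤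
      ENNReal.ofReal ((M + 5) * ε) := by
    refine le_trans ?_ (hS3L n k f b g R ε h r₀ χ G0 PP M T G Q hH)
    refine le_trans (Finset.sum_le_sum fun q hq => ?_)
      (Finset.sum_le_sum_of_subset (Finset.Icc_subset_Icc le_rfl hpQ))
    refine lintegral_mono_set ?_
    exact hsub.trans (ball_subset_ball (hanti q (Finset.mem_Icc.mp hq).2))
  rw [h2] at h1
  have h4 := (ENNReal.ofReal_le_ofReal_iff (by positivity)).mp (h1.trans h3)
  have hdeg : 1 ≤ f.natDegree := by
    rw [hsu.hdeg]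
    omega
  refine ⟨?_, (hLV k f b g G Ω p hdeg hsu.cyc hΩo hL).2.2.2.1 p le_rfl w hwΩ⟩
  set S := ∑ q ∈ Finset.Icc 1 p, lev b g G q w with hS
  have hS0 : 0 ≤ S := Finset.sum_nonneg fun q _ => hnn q w
  have hpi : (3.14 : ℝ) < Real.pi := Real.pi_gt_d2
  rw [le_div_iff₀ (by positivity)]
  have h5 : 1 * (S * t ^ 2) ≤ Real.pi * t ^ 2 * S := by
    have : 0 ≤ S * t ^ 2 := by positivity
    nlinarith
  nlinarith

end PPS
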